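import Pool.Agent.Y546.WQ.Stm4
import Pool.Agent.Y275.WQ.COREA

/-!
# The relation of order three for a quadratic polynomial
-/

set_option autoImplicit false

namespace Pool.Agent.Y445.WQ

open Polynomial Pool.Agent.Y546.WQ

section

variable {F : Type} [Field F]

theorem d1 (k : ℕ) : (derivative (X ^ k : F[X])).eval 1 = (k : F) := by
  rw [derivative_X_pow]
  simp

theorem d3 (k : ℕ) : (derivative (derivative (derivative (X ^ k : F[X])))).eval 1 =
    (k : F) * (k - 1) * (k - 2) := by
  rcases k with _ | _ | _ | k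
  · simp
  · simp
  · simp
  · simp only [derivative_X_pow, derivative_mul, derivative_C, zero_mul, zero_add,
      Nat.add_sub_cancel, eval_mul, eval_C, eval_pow, eval_X, one_pow, mul_one, derivative_natCast]
    push_cast
    ring

theorem d3_mul (G : F[X]) (l : ℕ) :
    (derivative (derivative (derivative ((X - 1) ^ (l + 4) * G)))).eval 1 = 0 := by
  have h : ((X - 1) ^ (l + 4) * G : F[X]) = (X - C 1) ^ 4 * ((X - 1) ^ l * G) := by
    rw [C_1]; ring
  rw [h]
  simp only [derivative_mul, derivative_X_sub_C_pow, derivative_add, derivative_C, eval_add,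
    eval_mul, eval_pow, eval_sub, eval_X, eval_C, sub_self, mul_zero, zero_mul, add_zero,
    derivative_natCast]
  simp

end

theorem refl2 {F : Type} [Field F] (a b e : F) :
    (C a + C b * X + C e * X ^ 2 : F[X]).reflect 2 = C e + C b * X + C a * X ^ 2 := by
  have h : (C a + C b * X + C e * X ^ 2 : F[X]) =
      C a * X ^ 0 + C b * X ^ 1 + C e * X ^ 2 := by
    rw [pow_zero, pow_one, mul_one]
  rw [h, reflect_add, reflect_add, reflect_C_mul_X_pow, reflect_C_mul_X_pow, reflect_C_mul_X_pow,
    revAt_le (by norm_num), revAt_le (by norm_num), revAt_le (by norm_num)]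
  simp only [Nat.sub_zero, Nat.sub_self, pow_zero, mul_one]
  norm_num
  ring

theorem mainCUB : S_CUB := by
  intro p hp h7 a b e hu hReg hRel
  have hp2 : p ≠ 2 := by omega
  obtain ⟨t, ht0, ht2, ht3⟩ := hReg
  obtain ⟨i, r, hr, hdvd⟩ := hRel t ht0 ht2
  set f : (ZMod p)[X] := C a + C b * X + C e * X ^ 2 with hf
  have hfd : f.natDegree ≤ 2 := by rw [hf]; compute_degree
  have hf1 : f.eval 1 ≠ 0 := by
    rw [hf]
    simpa using hu
  obtain ⟨s, hs⟩ : ∃ s : ℕ, (s : ZMod p) * (a + b + e) = 2 * (b + 2 * e) := by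
    refine ⟨(2 * (b + 2 * e) / (a + b + e)).val, ?_⟩
    rw [ZMod.natCast_zmod_val, div_mul_cancel₀ _ hu]
  set H : (ZMod p)[X] := X ^ 2 * f - X ^ s * f.reflect 2 with hH
  have hH2 : H = C a * X ^ 2 + C b * X ^ 3 + C e * X ^ 4 -
      (C e * X ^ s + C b * X ^ (s + 1) + C a * X ^ (s + 2)) := by
    rw [hH, hf, refl2]
    ring
  have e0 : H.eval 1 = 0 := by
    rw [hH2]
    simp only [eval_sub, eval_add, eval_mul, eval_C, eval_pow, eval_X, one_pow, mul_one]
    ring
  have e1 : (derivative H).eval 1 = 0 := by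
    rw [hH2]
    simp only [derivative_sub, derivative_add, derivative_C_mul, eval_sub, eval_add, eval_mul,
      eval_C, d1]
    push_cast
    linear_combination -hs
  have e3 : (derivative (derivative (derivative H))).eval 1 =
      6 * b + 24 * e - (e * (s * (s - 1) * (s - 2)) + b * ((s + 1) * s * (s - 1)) +
        a * ((s + 2) * (s + 1) * s)) := by
    rw [hH2]
    simp only [derivative_sub, derivative_add, derivative_C_mul, eval_sub, eval_add, eval_mul,
      eval_C, d3]
    push_cast
    ring
  have key : (derivative (derivative (derivative H))).eval 1 = 0 := by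
    by_cases hH0 : H = 0
    · rw [hH0]; simp
    · obtain ⟨W, hW, hW1⟩ := exists_eq_pow_rootMultiplicity_mul_and_not_dvd H hH0 1
      rw [dvd_iff_isRoot, IsRoot.def] at hW1
      set l := rootMultiplicity 1 H with hl
      rw [C_1] at hW
      clear_value l
      rcases l with _ | _ | _ | _ | l
      · exfalso
        rw [hW] at e0
        simp at e0
        exact hW1 e0
      · exfalso
        rw [hW] at e1
        simp at e1
        exact hW1 e1
      · exfalso
        have h1 := Pool.Agent.Y275.WQ.mainCOREA p hp2 t ht0 ht2 2 s i 2 f W r hfd hf1 hr hdvd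
          (by rw [← hH]; exact hW) hW1 le_rfl (by omega)
        exact absurd h1.1 (by decide)
      · exfalso
        have h1 := Pool.Agent.Y275.WQ.mainCOREA p hp2 t ht0 ht2 2 s i 3 f W r hfd hf1 hr hdvd
          (by rw [← hH]; exact hW) hW1 (by norm_num) (by omega)
        exact ht3 h1.2
      · rw [hW]
        exact d3_mul W l
  rw [e3] at key
  have h2 : (2 : ZMod p) ≠ 0 := by
    intro h
    have h3 : ((2 : ℕ) : ZMod p) = 0 := by exact_mod_cast h
    rw [ZMod.natCast_eq_zero_iff] at h3
    have := Nat.le_of_dvd (by norm_num) h3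
    omega
  apply mul_left_cancel₀ (neg_ne_zero.2 h2)
  set S : ZMod p := (s : ZMod p) with hS
  rw [mul_zero]
  linear_combination (a + b + e) ^ 2 * key + ((S * (a + b + e)) ^ 2 +
    (S * (a + b + e)) * (2 * (b + 2 * e)) + (2 * (b + 2 * e)) ^ 2 +
    3 * (a - e) * (S * (a + b + e) + 2 * (b + 2 * e)) +
    (2 * a + 2 * e - b) * (a + b + e)) * hs

end Pool.Agent.Y445.WQ
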